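import Pool.Agent.Lib.MP_b5c453_co.Basic
import Pool.Agent.Lib.MP_b5c453_co.Cover
import Pool.Agent.Lib.MP_b5c453_co.Linear
import Pool.Agent.Lib.MP_b5c453_co.Pyramid

/-!
MP_b5c453_co: for every `k ≥ 4` no pyramid over a crown graph is a smallest `1/k`-RA graph of
girth 3.
-/

set_option autoImplicit false

namespace Pool.Agent.Results.MP_b5c453_co.BelowPyramids

open Pool.Agent.Lib.MP_b5c453_co

/-- For every `k ≥ 4` there is a `1/k`-RA graph with a triangle on at most `2 k + 4` vertices,
and every pyramid over a crown graph which is `1/k`-RA has more than `m k` vertices. -/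
theorem result : ∀ k : ℕ, 4 ≤ k →
    (∃ (V : Type) (_ : Fintype V) (G : SimpleGraph V),
      ¬ G.CliqueFree 3 ∧ InvRA k G ∧ Fintype.card V ≤ 2 * k + 4) ∧
    m k ≤ 2 * k + 4 ∧
    ∀ n : ℕ, InvRA k (pyramid (crown n)) → m k < Fintype.card (Option (Fin n × Bool)) := by
  intro k hk
  have hex : ∃ (V : Type) (_ : Fintype V) (G : SimpleGraph V),
      ¬ G.CliqueFree 3 ∧ InvRA k G ∧ Fintype.card V ≤ 2 * k + 4 := by
    rcases Nat.even_or_odd k with he | ho
    · obtain ⟨f, hf⟩ := he
      have hf2 : k = 2 * f := by omega
      subst hf2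
      refine ⟨Option (Option (Fin f × Bool)) × Bool, inferInstance,
        dcov (friend f), ?_, invRA_friend f (by omega), ?_⟩
      · refine dcov_triangle (friend f) (some (⟨0, by omega⟩, true))
          (some (⟨1, by omega⟩, true)) ?_ ?_
        · simp
        · rintro ⟨h, _⟩
          have := congrArg Fin.val h
          simp at this
      · rw [card_dcov, Fintype.card_option, Fintype.card_prod, Fintype.card_fin,
          Fintype.card_bool]
        omega
    · have h2k : 2 ≤ k := by omega
      have h5 : 5 ≤ k := by
        obtain ⟨r, hr⟩ := ho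
        omega
      have : NeZero k := ⟨by omega⟩
      refine ⟨Option (Option (ZMod k)) × Bool, inferInstance,
        dcov (wheel k h2k), ?_, invRA_wheel h2k h5 ho, ?_⟩
      · refine dcov_triangle (wheel k h2k) (some 0) (some 2) ?_ ?_
        · intro h
          exact two_ne_zero_zmod (k := k) h5 (Option.some_inj.mp h).symm
        · rintro (h | h)
          · have : Fact (1 < k) := ⟨by omega⟩
            have h3 : (1 : ZMod k) = 2 - (0 + 1) := by ring
            rw [h, sub_self] at h3
            exact one_ne_zero h3
          · apply three_ne_zero_zmod (k := k) h5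
            rw [h]
            ring
      · rw [card_dcov, Fintype.card_option, ZMod.card]
        omega
  have hm : m k ≤ 2 * k + 4 := by
    obtain ⟨V, hV, G, h1, h2, h3⟩ := hex
    have h4 : m k ≤ Fintype.card V := Nat.sInf_le ⟨V, hV, G, rfl, h1, h2⟩
    exact h4.trans h3
  refine ⟨hex, hm, fun n hn => ?_⟩
  have h := (pyramid_iff k n (by omega)).mp hn
  subst h
  rw [Fintype.card_option, Fintype.card_prod, Fintype.card_fin, Fintype.card_bool]
  omega

end Pool.Agent.Results.MP_b5c453_co.BelowPyramids
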