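import Pool.Agent.Lib.MP_b5c453_co.AsFin
import Pool.Agent.Lib.MP_b5c453_co.AsLim
import Pool.Agent.Lib.MP_b5c453_co.AsLow

/-!
MP_b5c453_co: the least number `m k` of vertices of a `1/k`-RA graph of girth 3 is asymptotic to
`2 log k / log log k`.
-/

set_option autoImplicit false

namespace Pool.Agent.Results.MP_b5c453_co.SharpAsymptotic

open Pool.Agent.Lib.MP_b5c453_co Filter Topology

/-- `m k ~ 2 log k / log log k` as `k → ∞`. -/
theorem result :
    Tendsto (fun k : ℕ => (m k : ℝ) * Real.log (Real.log k) / Real.log k) atTop (𝓝 2) :=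
  As.lim_of_bounds m 300 (fun k hk => As.sq_le k hk)
    (fun m' T k hm hT hk hlt => As.m_le_asym m' T k hm hT hk hlt)

end Pool.Agent.Results.MP_b5c453_co.SharpAsymptotic
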